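import Pool.Agent.Helper18.NF.Basic3
import Pool.Agent.Helper18.NF.StA

/-!
# Project NF (MP_265190_nt): continuation of the L-functions of a system
-/

set_option autoImplicit false

open Finset Filter Topology
open Pool.Agent.Helper18.NF Pool.Agent.Helper18.BV

namespace Pool.Agent.Helper28.NF

/-! ### The tent function -/

theorem tent_div (m j : ℕ) (hm : 1 ≤ m) :
    tent ((m : ℝ) / 2 ^ j) = max 0 (1 - |Real.logb 2 m - j - 1|) := by
  have hm0 : (0 : ℝ) < m := by exact_mod_cast hm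
  have hl : Real.logb 2 ((m : ℝ) / 2 ^ j) = Real.logb 2 m - j := by
    rw [Real.logb_div hm0.ne' (by positivity), Real.logb_pow]
    simp
  unfold tent
  rcases le_total 1 ((m : ℝ) / 2 ^ j) with h | h
  · rw [max_eq_left h, hl]
  · rw [max_eq_right h, Real.logb_one]
    have h1 : Real.logb 2 m - j ≤ 0 := by
      rw [← hl]
      exact Real.logb_nonpos (by norm_num) (by positivity) h
    have h2 : |Real.logb 2 m - j - 1| = -(Real.logb 2 m - j - 1) := abs_of_nonpos (by linarith)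
    rw [h2]
    have h3 : |(0 : ℝ) - 1| = 1 := by norm_num
    rw [h3, max_eq_left (by linarith), max_eq_left (by linarith)]

theorem hasSum_tent (m : ℕ) (hm : 2 ≤ m) : HasSum (fun j : ℕ => tent ((m : ℝ) / 2 ^ j)) 1 := by
  set x : ℝ := Real.logb 2 m with hx
  have hx1 : 1 ≤ x := by
    rw [hx, Real.le_logb_iff_rpow_le (by norm_num) (by positivity)]
    simpa using (by exact_mod_cast hm : (2 : ℝ) ≤ m)
  set k : ℕ := ⌊x - 1⌋₊ with hk
  have hk1 : (k : ℝ) ≤ x - 1 := Nat.floor_le (by linarith)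
  have hk2 : x - 1 < k + 1 := Nat.lt_floor_add_one _
  have hz : ∀ j ∉ ({k, k + 1} : Finset ℕ), tent ((m : ℝ) / 2 ^ j) = 0 := by
    intro j hj
    simp only [Finset.mem_insert, Finset.mem_singleton, not_or] at hj
    rw [tent_div m j (by omega), ← hx]
    apply max_eq_left
    rcases lt_or_gt_of_ne hj.1 with h | h
    · have h1 : (j : ℝ) + 1 ≤ k := by exact_mod_cast h
      rw [abs_of_nonneg (by linarith)]
      linarith
    · have h1 : (k : ℝ) + 2 ≤ j := by
        have : k + 2 ≤ j := by omega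
        exact_mod_cast this
      rw [abs_of_nonpos (by linarith)]
      linarith
  have h1 : HasSum (fun j : ℕ => tent ((m : ℝ) / 2 ^ j))
      (∑ j ∈ ({k, k + 1} : Finset ℕ), tent ((m : ℝ) / 2 ^ j)) := hasSum_sum_of_ne_finset_zero hz
  have h2 : ∑ j ∈ ({k, k + 1} : Finset ℕ), tent ((m : ℝ) / 2 ^ j) = 1 := by
    rw [Finset.sum_pair (by omega), tent_div m k (by omega), tent_div m (k + 1) (by omega), ← hx,
      abs_of_nonneg (by linarith), abs_of_nonpos (by push_cast; linarith)]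
    push_cast
    rw [max_eq_right (by linarith), max_eq_right (by linarith)]
    ring
  rwa [h2] at h1

theorem tent_small (m j : ℕ) (hm : m ≤ 1) : tent ((m : ℝ) / 2 ^ j) = 0 := by
  apply tent_of_le
  have h1 : (m : ℝ) ≤ 1 := by exact_mod_cast hm
  have h2 : (1 : ℝ) ≤ 2 ^ j := one_le_pow₀ (by norm_num)
  rw [div_le_one (by positivity)]
  linarith

theorem tent_large (m j : ℕ) (hm : 4 * 2 ^ j ≤ m) : tent ((m : ℝ) / 2 ^ j) = 0 := by
  apply tent_of_ge
  rw [le_div_iff₀ (by positivity)]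
  exact_mod_cast hm

/-! ### The test functions -/

/-- The test function `tent(y) y^(-s)`. -/
noncomputable def G (s : ℂ) (y : ℝ) : ℂ := (tent y : ℂ) * (y : ℂ) ^ (-s)

theorem cpow_lip (s : ℂ) (hs : 0 ≤ s.re) (a b : ℝ) (ha : 1 ≤ a) (hb : 1 ≤ b) :
    ‖(a : ℂ) ^ (-s) - (b : ℂ) ^ (-s)‖ ≤ ‖s‖ * |a - b| := by
  have hd : ∀ x ∈ Set.Ici (1 : ℝ), HasDerivWithinAt (fun x : ℝ => (x : ℂ) ^ (-s))
      (-s * (x : ℂ) ^ (-s - 1)) (Set.Ici 1) x := by
    intro x hx
    have hx1 : (1 : ℝ) ≤ x := hx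
    have h1 : HasDerivAt (fun z : ℂ => z ^ (-s)) (-s * (x : ℂ) ^ (-s - 1) * 1) (x : ℂ) := by
      apply HasDerivAt.cpow_const (hasDerivAt_id _)
      left
      simp only [id]
      exact lt_of_lt_of_le one_pos (by simpa using hx1)
    rw [mul_one] at h1
    exact h1.comp_ofReal.hasDerivWithinAt
  have hbd : ∀ x ∈ Set.Ici (1 : ℝ), ‖-s * (x : ℂ) ^ (-s - 1)‖ ≤ ‖s‖ := by
    intro x hx
    have hx1 : (1 : ℝ) ≤ x := hx
    rw [norm_mul, norm_neg, Complex.norm_cpow_eq_rpow_re_of_pos (by linarith)]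
    have h1 : x ^ (-s - 1).re ≤ 1 := by
      apply Real.rpow_le_one_of_one_le_of_nonpos hx1
      simp
      linarith
    nlinarith [norm_nonneg s]
  have h2 := Convex.norm_image_sub_le_of_norm_hasDerivWithin_le hd hbd (convex_Ici 1)
    (x := b) (y := a) hb ha
  rwa [Real.norm_eq_abs] at h2

theorem G_eq (s : ℂ) (y : ℝ) : G s y = (tent y : ℂ) * ((max y 1 : ℝ) : ℂ) ^ (-s) := by
  unfold G
  rcases le_total y 1 with h | h
  · rw [tent_of_le h]; simp
  · rw [max_eq_left h]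

theorem norm_cpow_le (s : ℂ) (hs : 0 ≤ s.re) (a : ℝ) (ha : 1 ≤ a) : ‖(a : ℂ) ^ (-s)‖ ≤ 1 := by
  rw [Complex.norm_cpow_eq_rpow_re_of_pos (by linarith)]
  apply Real.rpow_le_one_of_one_le_of_nonpos ha
  simpa using hs

theorem isTest_G (s : ℂ) (hs : 0 ≤ s.re) : IsTest (2 + ‖s‖) (G s) where
  lip y z := by
    rw [G_eq, G_eq]
    have h1 : (tent y : ℂ) * ((max y 1 : ℝ) : ℂ) ^ (-s) - (tent z : ℂ) * ((max z 1 : ℝ) : ℂ) ^ (-s)
        = ((tent y - tent z : ℝ) : ℂ) * ((max y 1 : ℝ) : ℂ) ^ (-s) +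
          (tent z : ℂ) * (((max y 1 : ℝ) : ℂ) ^ (-s) - ((max z 1 : ℝ) : ℂ) ^ (-s)) := by
      push_cast; ring
    rw [h1]
    have h2 := tent_lip y z
    have h3 := cpow_lip s hs (max y 1) (max z 1) (le_max_right _ _) (le_max_right _ _)
    have h4 := norm_cpow_le s hs (max y 1) (le_max_right _ _)
    have h5 : |max y 1 - max z 1| ≤ |y - z| := abs_max_sub_max_le_abs _ _ _
    calc _ ≤ ‖((tent y - tent z : ℝ) : ℂ) * ((max y 1 : ℝ) : ℂ) ^ (-s)‖ +
          ‖(tent z : ℂ) * (((max y 1 : ℝ) : ℂ) ^ (-s) - ((max z 1 : ℝ) : ℂ) ^ (-s))‖ :=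
          norm_add_le _ _
      _ ≤ |tent y - tent z| * 1 + 1 * (‖s‖ * |y - z|) := by
          rw [norm_mul, norm_mul, Complex.norm_real, Complex.norm_real, Real.norm_eq_abs,
            Real.norm_eq_abs, abs_of_nonneg (tent_nonneg z)]
          gcongr
          · exact tent_le_one z
          · exact h3.trans (by gcongr)
      _ ≤ (2 + ‖s‖) * |y - z| := by linarith
  supp y hy := by
    unfold G
    rcases hy with h | h
    · rw [tent_of_le h]; simp
    · rw [tent_of_ge h]; simp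

/-! ### The dyadic pieces -/

/-- The dyadic piece of the L-function. -/
noncomputable def A (a : ℕ → ℂ) (j : ℕ) (s : ℂ) : ℂ :=
  ∑ m ∈ Icc 1 (4 * 2 ^ j), a m * (m : ℂ) ^ (-s) * (tent (m / 2 ^ j) : ℂ)

theorem LF_eq (a : ℕ → ℂ) (s : ℂ) : LF a s = a 1 + ∑' j, A a j s := rfl

theorem A_eq (a : ℕ → ℂ) (j : ℕ) (s : ℂ) :
    A a j s = (((2 : ℝ) ^ j : ℝ) : ℂ) ^ (-s) *
      ∑ m ∈ Icc 1 ⌊4 * (2 : ℝ) ^ j⌋₊, a m * G s (m / (2 : ℝ) ^ j) := by
  have h1 : ⌊4 * (2 : ℝ) ^ j⌋₊ = 4 * 2 ^ j := by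
    have : (4 * (2 : ℝ) ^ j) = ((4 * 2 ^ j : ℕ) : ℝ) := by push_cast; ring
    rw [this, Nat.floor_natCast]
  rw [h1, Finset.mul_sum]
  unfold A
  apply Finset.sum_congr rfl
  intro m hm
  have h2 : (m : ℂ) ^ (-s) = (((2 : ℝ) ^ j : ℝ) : ℂ) ^ (-s) * (((m : ℝ) / 2 ^ j : ℝ) : ℂ) ^ (-s) := by
    rw [← Complex.mul_cpow_ofReal_nonneg (by positivity) (by positivity)]
    congr 1
    push_cast
    field_simp
  unfold G
  rw [h2]
  ring

theorem differentiable_A (a : ℕ → ℂ) (j : ℕ) : Differentiable ℂ (A a j) := by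
  unfold A
  apply Differentiable.fun_sum
  intro m hm
  have hm1 : (m : ℂ) ≠ 0 := by
    have := (Finset.mem_Icc.1 hm).1
    exact_mod_cast (by omega : m ≠ 0)
  apply Differentiable.mul _ (differentiable_const _)
  apply (differentiable_const _).mul
  intro s
  apply DifferentiableAt.const_cpow
  · fun_prop
  · exact Or.inl hm1

theorem norm_two_cpow (j : ℕ) (s : ℂ) (θ : ℝ) :
    ‖(((2 : ℝ) ^ j : ℝ) : ℂ) ^ (-s)‖ * ((2 : ℝ) ^ j) ^ θ = ((2 : ℝ) ^ (-(s.re - θ))) ^ j := by
  rw [Complex.norm_cpow_eq_rpow_re_of_pos (by positivity), ← Real.rpow_add (by positivity),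
    ← Real.rpow_natCast, ← Real.rpow_mul (by norm_num), ← Real.rpow_natCast,
    ← Real.rpow_mul (by norm_num)]
  congr 1
  simp
  ring

/-! ### Geometric series -/

theorem geo_bound (x : ℝ) (hx : 0 < x) (hx4 : x ≤ 4) :
    ∑' j : ℕ, ((2 : ℝ) ^ (-x)) ^ j ≤ 6 / x := by
  have h0 : 0 < (2 : ℝ) ^ (-x) := by positivity
  have hl : (1 / 2 : ℝ) < Real.log 2 := by
    have := Real.log_two_gt_d9; linarith
  have h1 : (2 : ℝ) ^ (-x) ≤ 1 / (1 + x * Real.log 2) := by
    rw [Real.rpow_neg (by norm_num), ← one_div]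
    apply one_div_le_one_div_of_le (by positivity)
    rw [Real.rpow_def_of_pos (by norm_num), mul_comm x]
    have := Real.add_one_le_exp (Real.log 2 * x)
    linarith
  have h2 : 1 / (1 + x * Real.log 2) ≤ 1 - x / 6 := by
    rw [div_le_iff₀ (by positivity)]
    nlinarith [mul_pos hx hx, mul_pos hx (by linarith : (0:ℝ) < Real.log 2)]
  have h3 : (2 : ℝ) ^ (-x) < 1 := by
    have : 0 < x / 6 := by positivity
    linarith
  rw [tsum_geometric_of_lt_one h0.le h3, inv_eq_one_div]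
  have h4 : x / 6 ≤ 1 - (2 : ℝ) ^ (-x) := by linarith
  calc 1 / (1 - (2 : ℝ) ^ (-x)) ≤ 1 / (x / 6) := one_div_le_one_div_of_le (by positivity) h4
    _ = 6 / x := by field_simp

theorem geo_summable (x : ℝ) (hx : 0 < x) : Summable fun j : ℕ => ((2 : ℝ) ^ (-x)) ^ j := by
  apply summable_geometric_of_lt_one (by positivity)
  exact Real.rpow_lt_one_of_one_lt_of_neg (by norm_num) (by linarith)

/-- Sums of entire functions with geometric bounds. -/
theorem tsum_entire (F : ℕ → ℂ → ℂ) (hF : ∀ j, Differentiable ℂ (F j)) (K θ : ℝ) (hK : 0 ≤ K)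
    (hb : ∀ j (s : ℂ), θ < s.re → ‖F j s‖ ≤ K * (2 + ‖s‖) * ((2 : ℝ) ^ (-(s.re - θ))) ^ j) :
    DifferentiableOn ℂ (fun s => ∑' j, F j s) {s | θ < s.re} ∧
    (∀ s : ℂ, θ < s.re → Summable fun j => F j s) ∧
    ∀ s : ℂ, θ < s.re → s.re - θ ≤ 4 →
      ‖∑' j, F j s‖ ≤ K * (2 + ‖s‖) * (6 / (s.re - θ)) := by
  have hsum : ∀ s : ℂ, θ < s.re →
      Summable fun j => K * (2 + ‖s‖) * ((2 : ℝ) ^ (-(s.re - θ))) ^ j := fun s hs =>
    (geo_summable _ (by linarith)).mul_left _
  refine ⟨?_, ?_, ?_⟩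
  · intro s₀ hs₀
    have hs₀' : θ < s₀.re := hs₀
    set σ : ℝ := (θ + s₀.re) / 2 with hσ
    set R : ℝ := ‖s₀‖ + 1 with hR
    set U : Set ℂ := {s | σ < s.re} ∩ {s | ‖s‖ < R} with hU
    have hUo : IsOpen U :=
      (isOpen_lt continuous_const Complex.continuous_re).inter
        (isOpen_lt continuous_norm continuous_const)
    have h1 : DifferentiableOn ℂ (fun s => ∑' j, F j s) U := by
      apply Complex.differentiableOn_tsum_of_summable_norm
        (u := fun j => K * (2 + R) * ((2 : ℝ) ^ (-(σ - θ))) ^ j)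
      · exact (geo_summable _ (by rw [hσ]; linarith)).mul_left _
      · intro j; exact (hF j).differentiableOn
      · exact hUo
      · rintro j w ⟨hw1, hw2⟩
        have hw1' : σ < w.re := hw1
        have hw2' : ‖w‖ < R := hw2
        refine (hb j w (by rw [hσ] at hw1'; linarith)).trans ?_
        have h2 : (2 : ℝ) ^ (-(w.re - θ)) ≤ (2 : ℝ) ^ (-(σ - θ)) :=
          Real.rpow_le_rpow_of_exponent_le (by norm_num) (by linarith)
        gcongr
    have h3 : s₀ ∈ U := ⟨by rw [Set.mem_ofPred_eq, hσ]; linarith, by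
      rw [Set.mem_ofPred_eq, hR]; linarith⟩
    exact (h1.differentiableAt (hUo.mem_nhds h3)).differentiableWithinAt
  · intro s hs
    exact Summable.of_norm_bounded (hsum s hs) fun j => hb j s hs
  · intro s hs h4
    refine (tsum_of_norm_bounded (hsum s hs).hasSum fun j => hb j s hs).trans ?_
    rw [tsum_mul_left]
    gcongr
    exact geo_bound _ (by linarith) h4

/-! ### The identity for `Re s > 1` -/

theorem LSeries_eq (a : ℕ → ℂ) (s : ℂ) (ha : LSeriesSummable a s) :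
    (Summable fun j => A a j s) ∧ LSeries a s = a 1 + ∑' j, A a j s := by
  set f : ℕ → ℂ := LSeries.term a s with hf
  have hA : ∀ j, A a j s = ∑' m, f m * (tent ((m : ℝ) / 2 ^ j) : ℂ) := by
    intro j
    rw [tsum_eq_sum (s := Icc 1 (4 * 2 ^ j))]
    · unfold A
      apply Finset.sum_congr rfl
      intro m hm
      have hm1 : m ≠ 0 := by have := (Finset.mem_Icc.1 hm).1; omega
      rw [hf, LSeries.term_of_ne_zero hm1, Complex.cpow_neg]
      rfl
    · intro m hm
      rw [Finset.mem_Icc, not_and_or] at hm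
      rcases hm with h | h
      · rw [tent_small m j (by omega)]; simp
      · rw [tent_large m j (by omega)]; simp
  have hin : ∀ m, HasSum (fun j : ℕ => f m * (tent ((m : ℝ) / 2 ^ j) : ℂ))
      (if 2 ≤ m then f m else 0) := by
    intro m
    split_ifs with h
    · have h1 := (Complex.hasSum_ofReal.2 (hasSum_tent m h)).mul_left (f m)
      simpa using h1
    · have h1 : (fun j : ℕ => f m * (tent ((m : ℝ) / 2 ^ j) : ℂ)) = fun _ => 0 := by
        funext j
        rw [tent_small m j (by omega)]; simp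
      rw [h1]
      exact hasSum_zero
  have hnorm : Summable fun p : ℕ × ℕ => ‖f p.1 * (tent ((p.1 : ℝ) / 2 ^ p.2) : ℂ)‖ := by
    rw [summable_prod_of_nonneg (fun p => norm_nonneg _)]
    have h1 : ∀ m : ℕ, HasSum (fun j : ℕ => ‖f m * (tent ((m : ℝ) / 2 ^ j) : ℂ)‖)
        (if 2 ≤ m then ‖f m‖ else 0) := by
      intro m
      have h2 : (fun j : ℕ => ‖f m * (tent ((m : ℝ) / 2 ^ j) : ℂ)‖) =
          fun j : ℕ => ‖f m‖ * tent ((m : ℝ) / 2 ^ j) := by
        funext j
        rw [norm_mul, Complex.norm_real, Real.norm_eq_abs, abs_of_nonneg (tent_nonneg _)]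
      rw [h2]
      split_ifs with h
      · simpa using (hasSum_tent m h).mul_left ‖f m‖
      · have h3 : (fun j : ℕ => ‖f m‖ * tent ((m : ℝ) / 2 ^ j)) = fun _ => 0 := by
          funext j
          rw [tent_small m j (by omega)]; simp
        rw [h3]
        exact hasSum_zero
    refine ⟨fun m => (h1 m).summable, ?_⟩
    have h4 : (fun m : ℕ => ∑' j : ℕ, ‖f m * (tent ((m : ℝ) / 2 ^ j) : ℂ)‖) =
        fun m => if 2 ≤ m then ‖f m‖ else 0 := by
      funext m; exact (h1 m).tsum_eq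
    rw [h4]
    refine Summable.of_nonneg_of_le (fun m => ?_) (fun m => ?_) ha.norm
    · split_ifs <;> positivity
    · split_ifs
      · exact le_rfl
      · exact norm_nonneg _
  have hsum : Summable (Function.uncurry fun m j : ℕ => f m * (tent ((m : ℝ) / 2 ^ j) : ℂ)) :=
    hnorm.of_norm
  constructor
  · have h1 : (fun j => A a j s) = fun j => ∑' m, f m * (tent ((m : ℝ) / 2 ^ j) : ℂ) := funext hA
    rw [h1]
    have h2 : Summable (Function.uncurry fun j m : ℕ => f m * (tent ((m : ℝ) / 2 ^ j) : ℂ)) :=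
      (Equiv.prodComm ℕ ℕ).summable_iff.1 (by
        convert hsum using 1
        funext ⟨m, j⟩
        rfl)
    exact h2.prod
  · have h1 : ∑' j, A a j s = ∑' m, (if 2 ≤ m then f m else 0) := by
      calc ∑' j, A a j s = ∑' j, ∑' m, f m * (tent ((m : ℝ) / 2 ^ j) : ℂ) := tsum_congr hA
        _ = ∑' m, ∑' j, f m * (tent ((m : ℝ) / 2 ^ j) : ℂ) := hsum.tsum_comm
        _ = _ := tsum_congr fun m => (hin m).tsum_eq
    rw [h1]
    have h2 : LSeries a s = ∑' m, f m := rfl
    rw [h2, ha.tsum_eq_add_tsum_ite 1]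
    congr 1
    · rw [LSeries.term_of_ne_zero one_ne_zero]
      simp
    · apply tsum_congr
      intro m
      by_cases h1 : m = 1
      · subst h1; simp
      · by_cases h2 : 2 ≤ m
        · rw [if_neg h1, if_pos h2]
        · have h3 : m = 0 := by omega
          subst h3
          simp [LSeries.term_zero]

/-! ### Two entire functions -/

/-- `(e^w - 1)/w`. -/
noncomputable def psi : ℂ → ℂ := dslope Complex.exp 0

/-- `(e^w - 1 - w)/w^2`. -/
noncomputable def phi : ℂ → ℂ := dslope psi 0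

theorem differentiable_psi : Differentiable ℂ psi := by
  rw [← differentiableOn_univ]
  exact (Complex.differentiableOn_dslope Filter.univ_mem).2 Complex.differentiable_exp.differentiableOn

theorem differentiable_phi : Differentiable ℂ phi := by
  rw [← differentiableOn_univ]
  exact (Complex.differentiableOn_dslope Filter.univ_mem).2 differentiable_psi.differentiableOn

theorem psi_of_ne {w : ℂ} (hw : w ≠ 0) : psi w = (Complex.exp w - 1) / w := by
  unfold psi
  rw [dslope_of_ne _ hw, slope_def_field, Complex.exp_zero, sub_zero]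

theorem psi_zero : psi 0 = 1 := by
  unfold psi
  rw [dslope_same, Complex.deriv_exp, Complex.exp_zero]

theorem phi_of_ne {w : ℂ} (hw : w ≠ 0) : phi w = (Complex.exp w - 1 - w) / w ^ 2 := by
  unfold phi
  rw [dslope_of_ne _ hw, slope_def_field, psi_zero, psi_of_ne hw, sub_zero]
  field_simp

theorem norm_exp_sub_one_le {w : ℂ} (hw : w.re ≤ Real.log 2) : ‖Complex.exp w - 1‖ ≤ 2 * ‖w‖ := by
  have h1 := Convex.norm_image_sub_le_of_norm_deriv_le (𝕜 := ℂ) (f := Complex.exp) (C := 2)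
    (s := {z : ℂ | z.re ≤ Real.log 2}) (x := 0) (y := w)
    (fun z _ => Complex.differentiable_exp z) (fun z hz => by
      have hz1 : z.re ≤ Real.log 2 := hz
      rw [Complex.deriv_exp, Complex.norm_exp]
      calc Real.exp z.re ≤ Real.exp (Real.log 2) := Real.exp_le_exp.2 hz1
        _ = 2 := Real.exp_log (by norm_num))
    (convex_halfSpace_re_le _) (by
      change (0 : ℂ).re ≤ Real.log 2
      simpa using Real.log_nonneg (by norm_num)) hw
  simpa using h1

theorem norm_exp_sub_le {w : ℂ} (hw : w.re ≤ Real.log 2) :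
    ‖Complex.exp w - 1 - w‖ ≤ 2 * ‖w‖ * ‖w‖ := by
  have hd : ∀ z : ℂ, HasDerivAt (fun z : ℂ => Complex.exp z - 1 - z) (Complex.exp z - 1) z := by
    intro z
    exact ((Complex.hasDerivAt_exp z).sub_const 1).sub (hasDerivAt_id z)
  have h1 := Convex.norm_image_sub_le_of_norm_deriv_le (𝕜 := ℂ)
    (f := fun z : ℂ => Complex.exp z - 1 - z) (C := 2 * ‖w‖)
    (s := {z : ℂ | z.re ≤ Real.log 2} ∩ Metric.closedBall 0 ‖w‖) (x := 0) (y := w)
    (fun z _ => (hd z).differentiableAt) (fun z hz => by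
      have hz1 : z.re ≤ Real.log 2 := hz.1
      have hz2 : ‖z‖ ≤ ‖w‖ := by simpa using hz.2
      rw [(hd z).deriv]
      exact (norm_exp_sub_one_le hz1).trans (by gcongr))
    ((convex_halfSpace_re_le _).inter (convex_closedBall _ _)) (by
      refine ⟨?_, by simp⟩
      change (0 : ℂ).re ≤ Real.log 2
      simpa using Real.log_nonneg (by norm_num)) ⟨hw, by simp⟩
  simpa using h1

theorem norm_phi_le_of_ne {w : ℂ} (hw : w ≠ 0) (h : w.re ≤ Real.log 2) : ‖phi w‖ ≤ 2 := by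
  rw [phi_of_ne hw, norm_div, norm_pow, div_le_iff₀ (by positivity)]
  have := norm_exp_sub_le h
  linarith

/-- extension of an inequality to a point by continuity -/
theorem norm_le_at {f : ℂ → ℂ} {g : ℂ → ℝ} {a : ℂ} (hf : ContinuousAt f a) (hg : ContinuousAt g a)
    (h : ∀ᶠ s in 𝓝[≠] a, ‖f s‖ ≤ g s) : ‖f a‖ ≤ g a :=
  le_of_tendsto_of_tendsto (hf.norm.tendsto.mono_left nhdsWithin_le_nhds)
    (hg.tendsto.mono_left nhdsWithin_le_nhds) h

theorem norm_phi_zero : ‖phi 0‖ ≤ 2 := by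
  apply norm_le_at (g := fun _ => 2) differentiable_phi.continuous.continuousAt continuousAt_const
  have h1 : ∀ᶠ s in 𝓝[≠] (0 : ℂ), s.re < Real.log 2 := by
    apply nhdsWithin_le_nhds
    apply (Complex.continuous_re.continuousAt (x := (0 : ℂ))).eventually_lt continuousAt_const
    simpa using Real.log_pos (by norm_num)
  filter_upwards [h1, self_mem_nhdsWithin] with s hs hs0
  exact norm_phi_le_of_ne hs0 hs.le

theorem norm_phi_le {w : ℂ} (h : w.re ≤ Real.log 2) : ‖phi w‖ ≤ 2 := by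
  by_cases hw : w = 0
  · rw [hw]; exact norm_phi_zero
  · exact norm_phi_le_of_ne hw h

/-! ### The integral of the test function -/

/-- The integral of the test function. -/
noncomputable def J (s : ℂ) : ℂ := Real.log 2 * psi ((1 - s) * Real.log 2) ^ 2

theorem differentiable_J : Differentiable ℂ J := by
  unfold J
  have h1 : Differentiable ℂ fun s : ℂ => psi ((1 - s) * Real.log 2) :=
    differentiable_psi.comp (by fun_prop)
  exact (differentiable_const _).mul (h1.pow 2)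

theorem continuous_G (s : ℂ) (hs : 0 ≤ s.re) : Continuous (G s) := by
  have h1 : LipschitzWith ⟨2 + ‖s‖, by positivity⟩ (G s) :=
    LipschitzWith.of_dist_le_mul fun y z => by
      rw [dist_eq_norm, Real.dist_eq]
      exact (isTest_G s hs).lip y z
  exact h1.continuous

theorem hasDerivAt_F0 (s : ℂ) (hs : s ≠ 1) (y : ℝ) (hy : 0 < y) :
    HasDerivAt (fun y : ℝ => (y : ℂ) ^ (1 - s) / (1 - s)) ((y : ℂ) ^ (-s)) y := by
  have h0 : (1 - s) ≠ 0 := sub_ne_zero.2 (Ne.symm hs)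
  have h1 : HasDerivAt (fun z : ℂ => z ^ (1 - s)) ((1 - s) * (y : ℂ) ^ (1 - s - 1) * 1) (y : ℂ) := by
    apply HasDerivAt.cpow_const (hasDerivAt_id _)
    left
    simpa using hy
  have h2 := (h1.div_const (1 - s)).comp_ofReal
  convert h2 using 1
  rw [show (1 - s - 1 : ℂ) = -s by ring]
  field_simp

theorem hasDerivAt_F1 (s : ℂ) (hs : s ≠ 1) (y : ℝ) (hy : 0 < y) :
    HasDerivAt (fun y : ℝ => (y : ℂ) ^ (1 - s) / (1 - s) * ((Real.log y : ℂ) - 1 / (1 - s)))
      ((y : ℂ) ^ (-s) * Real.log y) y := by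
  have h0 : (1 - s) ≠ 0 := sub_ne_zero.2 (Ne.symm hs)
  have hy0 : (y : ℂ) ≠ 0 := by exact_mod_cast hy.ne'
  have h1 := hasDerivAt_F0 s hs y hy
  have h2 : HasDerivAt (fun y : ℝ => ((Real.log y : ℝ) : ℂ) - 1 / (1 - s)) ((y⁻¹ : ℝ) : ℂ) y :=
    ((Real.hasDerivAt_log hy.ne').ofReal_comp).sub_const _
  have h3 := h1.mul h2
  refine h3.congr_deriv ?_
  have h4 : (y : ℂ) ^ (1 - s) = y * (y : ℂ) ^ (-s) := by
    rw [sub_eq_add_neg, Complex.cpow_add _ _ hy0, Complex.cpow_one]
  rw [h4]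
  push_cast
  field_simp
  ring

theorem integral_G (s : ℂ) (hs : 0 ≤ s.re) (hs1 : s ≠ 1) : ∫ y, G s y = J s := by
  have h0 : (1 - s) ≠ 0 := sub_ne_zero.2 (Ne.symm hs1)
  have hl : (0 : ℝ) < Real.log 2 := Real.log_pos (by norm_num)
  have hlc : (Real.log 2 : ℂ) ≠ 0 := by exact_mod_cast hl.ne'
  have h1 : ∫ y, G s y = ∫ y in (1 : ℝ)..4, G s y := by
    rw [intervalIntegral.integral_of_le (by norm_num)]
    symm
    apply MeasureTheory.setIntegral_eq_integral_of_forall_compl_eq_zero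
    intro y hy
    apply (isTest_G s hs).supp
    rw [Set.mem_Ioc, not_and_or, not_lt, not_le] at hy
    rcases hy with h | h
    · exact Or.inl h
    · exact Or.inr h.le
  have hc := continuous_G s hs
  rw [h1, ← intervalIntegral.integral_add_adjacent_intervals (hc.intervalIntegrable 1 2)
    (hc.intervalIntegrable 2 4)]
  have h2 : ∫ y in (1 : ℝ)..2, G s y =
      (((2 : ℝ) : ℂ) ^ (1 - s) / (1 - s) * ((Real.log 2 : ℂ) - 1 / (1 - s))) / Real.log 2 -
      (((1 : ℝ) : ℂ) ^ (1 - s) / (1 - s) * ((Real.log 1 : ℂ) - 1 / (1 - s))) / Real.log 2 := by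
    apply intervalIntegral.integral_eq_sub_of_hasDerivAt
      (f := fun y : ℝ => ((y : ℂ) ^ (1 - s) / (1 - s) * ((Real.log y : ℂ) - 1 / (1 - s))) /
        Real.log 2) _ (hc.intervalIntegrable 1 2)
    intro y hy
    rw [Set.uIcc_of_le (by norm_num)] at hy
    have hd := (hasDerivAt_F1 s hs1 y (by linarith [hy.1])).div_const (Real.log 2 : ℂ)
    refine hd.congr_deriv ?_
    have ht : tent y = Real.log y / Real.log 2 := by
      have hm : max y 1 = y := max_eq_left hy.1
      unfold tent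
      rw [hm]
      have h3 : 0 ≤ Real.logb 2 y := Real.logb_nonneg (by norm_num) hy.1
      have h4 : Real.logb 2 y ≤ 1 := by
        rw [Real.logb_le_iff_le_rpow (by norm_num) (by linarith [hy.1]), Real.rpow_one]
        exact hy.2
      rw [abs_of_nonpos (by linarith), max_eq_right (by linarith)]
      unfold Real.logb; ring
    unfold G
    rw [ht]
    push_cast
    ring
  have h3 : ∫ y in (2 : ℝ)..4, G s y =
      (2 * (((4 : ℝ) : ℂ) ^ (1 - s) / (1 - s)) -
        (((4 : ℝ) : ℂ) ^ (1 - s) / (1 - s) * ((Real.log 4 : ℂ) - 1 / (1 - s))) / Real.log 2) -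
      (2 * (((2 : ℝ) : ℂ) ^ (1 - s) / (1 - s)) -
        (((2 : ℝ) : ℂ) ^ (1 - s) / (1 - s) * ((Real.log 2 : ℂ) - 1 / (1 - s))) / Real.log 2) := by
    apply intervalIntegral.integral_eq_sub_of_hasDerivAt
      (f := fun y : ℝ => 2 * ((y : ℂ) ^ (1 - s) / (1 - s)) -
        ((y : ℂ) ^ (1 - s) / (1 - s) * ((Real.log y : ℂ) - 1 / (1 - s))) /
        Real.log 2) _ (hc.intervalIntegrable 2 4)
    intro y hy
    rw [Set.uIcc_of_le (by norm_num)] at hy
    have hy0 : (0 : ℝ) < y := by linarith [hy.1]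
    have hd := ((hasDerivAt_F0 s hs1 y hy0).const_mul (2 : ℂ)).sub
      ((hasDerivAt_F1 s hs1 y hy0).div_const (Real.log 2 : ℂ))
    refine hd.congr_deriv ?_
    have ht : tent y = 2 - Real.log y / Real.log 2 := by
      have hm : max y 1 = y := max_eq_left (by linarith [hy.1])
      unfold tent
      rw [hm]
      have h3 : 1 ≤ Real.logb 2 y := by
        rw [Real.le_logb_iff_rpow_le (by norm_num) hy0, Real.rpow_one]
        exact hy.1
      have h4 : Real.logb 2 y ≤ 2 := by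
        rw [Real.logb_le_iff_le_rpow (by norm_num) hy0]
        norm_num
        exact hy.2
      rw [abs_of_nonneg (by linarith), max_eq_right (by linarith)]
      unfold Real.logb; ring
    unfold G
    rw [ht]
    push_cast
    ring
  have h4 : ((4 : ℝ) : ℂ) ^ (1 - s) = ((2 : ℝ) : ℂ) ^ (1 - s) * ((2 : ℝ) : ℂ) ^ (1 - s) := by
    rw [← Complex.mul_cpow_ofReal_nonneg (by norm_num) (by norm_num)]
    norm_num
  have h5 : Real.log 4 = 2 * Real.log 2 := by
    rw [show (4 : ℝ) = 2 ^ 2 by norm_num, Real.log_pow]; norm_num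
  have h6 : Complex.exp ((1 - s) * Real.log 2) = ((2 : ℝ) : ℂ) ^ (1 - s) := by
    rw [Complex.cpow_def_of_ne_zero (by norm_num), ← Complex.ofReal_log (by norm_num), mul_comm]
  rw [h2, h3, h4, h5]
  unfold J
  rw [psi_of_ne (mul_ne_zero h0 hlc), h6]
  simp only [Complex.ofReal_one, Complex.one_cpow, Real.log_one, Complex.ofReal_zero]
  push_cast
  field_simp
  ring

/-! ### The two theorems -/

theorem theta_nonneg (n : ℕ) : 0 ≤ 1 - 1 / (n : ℝ) := by
  rcases Nat.eq_zero_or_pos n with rfl | h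
  · simp
  · have h1 : (1 : ℝ) ≤ n := by exact_mod_cast h
    rw [sub_nonneg, div_le_one (by linarith)]
    exact h1

theorem one_le_two_pow (j : ℕ) : (1 : ℝ) ≤ 2 ^ j := one_le_pow₀ (by norm_num)

theorem cont : Cont := by
  intro n r L κ h
  obtain ⟨C, hC, hb⟩ := h.char
  have hθ := theta_nonneg n
  set θ : ℝ := 1 - 1 / (n : ℝ) with hθd
  refine ⟨12 * C + 4, by positivity, ?_⟩
  intro q _ χ hχ
  have hq : (1 : ℝ) ≤ q := by exact_mod_cast NeZero.one_le
  have hqn : (1 : ℝ) ≤ (q : ℝ) ^ n := one_le_pow₀ hq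
  have h1 : tw r χ 1 = 1 := by
    unfold tw
    rw [h.one]
    simp
  obtain ⟨hd, -, hle⟩ := tsum_entire (fun j => A (tw r χ) j) (fun j => differentiable_A _ j)
    (C * (q : ℝ) ^ n) θ (by positivity) (by
      intro j s hs
      rw [A_eq, norm_mul]
      have h2 := hb q χ hχ (2 + ‖s‖) ((2 : ℝ) ^ j) (G s) (isTest_G s (by linarith))
        (one_le_two_pow j)
      have h3 : ‖∑ m ∈ Icc 1 ⌊4 * (2 : ℝ) ^ j⌋₊, tw r χ m * G s (m / (2 : ℝ) ^ j)‖ ≤
          C * (2 + ‖s‖) * (q : ℝ) ^ n * ((2 : ℝ) ^ j) ^ θ := h2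
      calc _ ≤ ‖(((2 : ℝ) ^ j : ℝ) : ℂ) ^ (-s)‖ *
            (C * (2 + ‖s‖) * (q : ℝ) ^ n * ((2 : ℝ) ^ j) ^ θ) := by gcongr
        _ = (C * (2 + ‖s‖) * (q : ℝ) ^ n) *
            (‖(((2 : ℝ) ^ j : ℝ) : ℂ) ^ (-s)‖ * ((2 : ℝ) ^ j) ^ θ) := by ring
        _ = _ := by rw [norm_two_cpow]; ring)
  refine ⟨?_, ?_, ?_⟩
  · have h2 : LF (tw r χ) = fun s => 1 + ∑' j, A (tw r χ) j s := by
      funext s; rw [LF_eq, h1]
    rw [h2]
    exact (differentiableOn_const _).add hd
  · intro s hs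
    rw [LF_eq, (LSeries_eq _ s (h.summable_tw_r χ hs)).2]
  · intro s hs hs4
    have hx : 0 < s.re - θ := by linarith
    have hx4 : s.re - θ ≤ 4 := by linarith
    have h2 := hle s hs hx4
    rw [LF_eq, h1]
    calc ‖1 + ∑' j, A (tw r χ) j s‖ ≤ ‖(1 : ℂ)‖ + ‖∑' j, A (tw r χ) j s‖ := norm_add_le _ _
      _ ≤ 1 + C * (q : ℝ) ^ n * (2 + ‖s‖) * (6 / (s.re - θ)) := by
          rw [norm_one]; linarith
      _ ≤ (12 * C + 4) * (q : ℝ) ^ n * (1 + ‖s‖) / (s.re - θ) := by
          rw [le_div_iff₀ hx, add_mul, mul_assoc, div_mul_cancel₀ _ hx.ne', one_mul]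
          have h3 : (1 : ℝ) ≤ (q : ℝ) ^ n * (1 + ‖s‖) := by
            nlinarith [norm_nonneg s]
          have h4 : 0 ≤ C * (q : ℝ) ^ n * ‖s‖ := by positivity
          nlinarith

theorem two_cpow_mul (j : ℕ) (s : ℂ) :
    (((2 : ℝ) ^ j : ℝ) : ℂ) ^ (-s) * (((2 : ℝ) ^ j : ℝ) : ℂ) =
      Complex.exp ((1 - s) * Real.log 2) ^ j := by
  have h0 : (((2 : ℝ) ^ j : ℝ) : ℂ) ≠ 0 := by
    have : (2 : ℝ) ^ j ≠ 0 := by positivity
    exact_mod_cast this
  have h1 : (((2 : ℝ) ^ j : ℝ) : ℂ) = Complex.exp (j * Real.log 2) := by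
    rw [← Complex.ofReal_natCast, ← Complex.ofReal_mul, ← Complex.ofReal_exp, ← Real.log_pow,
      Real.exp_log (by positivity)]
  rw [Complex.cpow_def_of_ne_zero h0, ← Complex.ofReal_log (by positivity), Real.log_pow,
    ← Complex.exp_nat_mul, h1, ← Complex.exp_add]
  congr 1
  push_cast
  ring

theorem cont0 : Cont0 := by
  intro n r L κ h
  obtain ⟨C, hC, hb⟩ := h.triv
  have hθ := theta_nonneg n
  have hθ1 : 1 - 1 / (n : ℝ) < 1 := by
    have : (0 : ℝ) < n := by exact_mod_cast h.pos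
    have : 0 < 1 / (n : ℝ) := by positivity
    linarith
  set θ : ℝ := 1 - 1 / (n : ℝ) with hθd
  have hl : (0 : ℝ) < Real.log 2 := Real.log_pos (by norm_num)
  have hlc : (Real.log 2 : ℂ) ≠ 0 := by exact_mod_cast hl.ne'
  have h1 : cr r 1 = 1 := by
    unfold cr
    rw [h.one]
    simp
  let w : ℂ → ℂ := fun s => (1 - s) * Real.log 2
  have hw : Differentiable ℂ w := by
    change Differentiable ℂ fun s : ℂ => (1 - s) * (Real.log 2 : ℂ)
    fun_prop
  let E : ℕ → ℂ → ℂ := fun j s => A (cr r) j s - κ * Complex.exp (w s) ^ j * J s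
  have hE : ∀ j, Differentiable ℂ (E j) := by
    intro j
    apply (differentiable_A _ j).sub
    apply Differentiable.mul _ differentiable_J
    exact (differentiable_const _).mul ((Complex.differentiable_exp.comp hw).pow j)
  have hne : ∀ j (s : ℂ), θ < s.re → s ≠ 1 →
      ‖E j s‖ ≤ C * (2 + ‖s‖) * ((2 : ℝ) ^ (-(s.re - θ))) ^ j := by
    intro j s hs hs1
    have h2 := hb (2 + ‖s‖) ((2 : ℝ) ^ j) (G s) (isTest_G s (by linarith)) (one_le_two_pow j)
    have h3 : E j s = (((2 : ℝ) ^ j : ℝ) : ℂ) ^ (-s) *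
        (∑ m ∈ Icc 1 ⌊4 * (2 : ℝ) ^ j⌋₊, (r m : ℂ) * G s (m / (2 : ℝ) ^ j) -
          κ * ((2 : ℝ) ^ j : ℝ) * ∫ y, G s y) := by
      change A (cr r) j s - κ * Complex.exp (w s) ^ j * J s = _
      rw [integral_G s (by linarith) hs1, A_eq, ← two_cpow_mul]
      unfold cr
      ring
    rw [h3, norm_mul]
    calc _ ≤ ‖(((2 : ℝ) ^ j : ℝ) : ℂ) ^ (-s)‖ * (C * (2 + ‖s‖) * ((2 : ℝ) ^ j) ^ θ) := by
          gcongr
      _ = (C * (2 + ‖s‖)) * (‖(((2 : ℝ) ^ j : ℝ) : ℂ) ^ (-s)‖ * ((2 : ℝ) ^ j) ^ θ) := by ring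
      _ = _ := by rw [norm_two_cpow]
  have hall : ∀ j (s : ℂ), θ < s.re →
      ‖E j s‖ ≤ C * (2 + ‖s‖) * ((2 : ℝ) ^ (-(s.re - θ))) ^ j := by
    intro j s hs
    by_cases hs1 : s = 1
    · subst hs1
      apply norm_le_at (hE j).continuous.continuousAt
        (g := fun s : ℂ => C * (2 + ‖s‖) * ((2 : ℝ) ^ (-(s.re - θ))) ^ j)
      · have h4 : Continuous fun s : ℂ => (2 : ℝ) ^ (-(s.re - θ)) :=
          (Real.continuous_const_rpow (by norm_num)).comp (by fun_prop)
        have h5 : Continuous fun s : ℂ => C * (2 + ‖s‖) * ((2 : ℝ) ^ (-(s.re - θ))) ^ j :=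
          (by fun_prop : Continuous fun s : ℂ => C * (2 + ‖s‖)).mul (h4.pow j)
        exact h5.continuousAt
      · have h6 : ∀ᶠ s in 𝓝[≠] (1 : ℂ), θ < s.re := by
          apply nhdsWithin_le_nhds
          apply continuousAt_const.eventually_lt (Complex.continuous_re.continuousAt (x := (1 : ℂ)))
          simpa using hθ1
        filter_upwards [h6, self_mem_nhdsWithin] with s hs hs1
        exact hne j s hs hs1
    · exact hne j s hs hs1
  obtain ⟨hd, hsm, hle⟩ := tsum_entire E hE C θ hC.le hall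
  refine ⟨12 * C + 4 + 8 * κ, fun s => 1 + ∑' j, E j s - κ * Real.log 2 * phi (w s),
    by have := h.kpos; positivity, ?_, ?_, ?_⟩
  · apply DifferentiableOn.sub
    · exact (differentiableOn_const _).add hd
    · exact ((differentiable_const _).mul (differentiable_phi.comp hw)).differentiableOn
  · intro s hs
    have hs1 : s ≠ 1 := by
      rintro rfl
      simp at hs
    have h0 : (1 - s) ≠ 0 := sub_ne_zero.2 (Ne.symm hs1)
    have h0' : (s - 1) ≠ 0 := sub_ne_zero.2 hs1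
    have hw0 : w s ≠ 0 := mul_ne_zero h0 hlc
    obtain ⟨hA, hL⟩ := LSeries_eq _ s (h.summable_cr_r hs)
    have he1 : ‖Complex.exp (w s)‖ < 1 := by
      rw [Complex.norm_exp]
      have h2 : (w s).re = (1 - s.re) * Real.log 2 := by
        change ((1 - s) * (Real.log 2 : ℂ)).re = _
        rw [Complex.re_mul_ofReal]
        simp
      rw [h2, Real.exp_lt_one_iff]
      nlinarith
    have hgeo := hasSum_geometric_of_norm_lt_one he1
    have hE1 : ∑' j, E j s = ∑' j, A (cr r) j s - κ * J s * (1 - Complex.exp (w s))⁻¹ := by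
      have h2 : HasSum (fun j => A (cr r) j s - κ * J s * Complex.exp (w s) ^ j)
          (∑' j, A (cr r) j s - κ * J s * (1 - Complex.exp (w s))⁻¹) :=
        hA.hasSum.sub (hgeo.mul_left _)
      rw [← h2.tsum_eq]
      apply tsum_congr
      intro j
      change A (cr r) j s - κ * Complex.exp (w s) ^ j * J s = _
      ring
    have he2 : 1 - Complex.exp (w s) ≠ 0 := by
      intro h3
      have h4 : Complex.exp (w s) = 1 := (sub_eq_zero.1 h3).symm
      rw [h4, norm_one] at he1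
      exact lt_irrefl _ he1
    rw [hL, h1]
    change 1 + ∑' j, A (cr r) j s = κ / (s - 1) + (1 + ∑' j, E j s - κ * Real.log 2 * phi (w s))
    rw [hE1, phi_of_ne hw0]
    have hJ : J s = Real.log 2 * ((Complex.exp (w s) - 1) / w s) ^ 2 := by
      unfold J
      rw [psi_of_ne hw0]
    rw [hJ]
    have hws : w s = (1 - s) * Real.log 2 := rfl
    have hs1' : κ / (s - 1) = -(κ * Real.log 2) / w s := by
      rw [hws]
      have : s - 1 = -(1 - s) := by ring
      rw [this]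
      field_simp
    rw [hs1']
    have he3 : Complex.exp (w s) - 1 = -(1 - Complex.exp (w s)) := by ring
    field_simp
    ring
  · intro s hs hs4
    have hx : 0 < s.re - θ := by linarith
    have hx4 : s.re - θ ≤ 4 := by linarith
    have h2 := hle s hs hx4
    have h3 : ‖phi (w s)‖ ≤ 2 := by
      apply norm_phi_le
      change ((1 - s) * (Real.log 2 : ℂ)).re ≤ _
      rw [Complex.re_mul_ofReal]
      simp only [Complex.sub_re, Complex.one_re]
      nlinarith
    have hk := h.kpos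
    have hl1 : Real.log 2 ≤ 1 := by
      have := Real.log_two_lt_d9; linarith
    have h5 : ‖(κ : ℂ) * Real.log 2 * phi (w s)‖ ≤ 2 * κ := by
      rw [norm_mul, norm_mul, Complex.norm_real, Complex.norm_real, Real.norm_of_nonneg hk.le,
        Real.norm_of_nonneg hl.le]
      calc κ * Real.log 2 * ‖phi (w s)‖ ≤ κ * 1 * 2 := by gcongr
        _ = 2 * κ := by ring
    calc ‖1 + ∑' j, E j s - κ * Real.log 2 * phi (w s)‖
        ≤ ‖1 + ∑' j, E j s‖ + ‖(κ : ℂ) * Real.log 2 * phi (w s)‖ := norm_sub_le _ _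
      _ ≤ (‖(1 : ℂ)‖ + ‖∑' j, E j s‖) + ‖(κ : ℂ) * Real.log 2 * phi (w s)‖ := by
          gcongr; exact norm_add_le _ _
      _ ≤ (1 + C * (2 + ‖s‖) * (6 / (s.re - θ))) + 2 * κ := by
          rw [norm_one]; linarith
      _ ≤ (12 * C + 4 + 8 * κ) * (1 + ‖s‖) / (s.re - θ) := by
          rw [le_div_iff₀ hx]
          have h6 : C * (2 + ‖s‖) * (6 / (s.re - θ)) * (s.re - θ) = 6 * C * (2 + ‖s‖) := by
            field_simp
          have h7 : 0 ≤ C * ‖s‖ := by positivity
          have h8 : 0 ≤ κ * ‖s‖ := by positivity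
          have h9 := norm_nonneg s
          have h10 : κ * (s.re - θ) ≤ κ * 4 := by gcongr
          nlinarith

end Pool.Agent.Helper28.NF
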